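import Mathlib
import Pool.Agent.H22.CovH

set_option autoImplicit false

namespace Pool.Agent.Results.MP_5b687f_co.LinearOptimal

open Filter Topology

/-- The `t`-weight of a `t × n` matrix over `F`: the number of its nonzero columns. -/
noncomputable def tWeight {F : Type} [Field F] {t n : ℕ} (v : Matrix (Fin t) (Fin n) F) : ℕ :=
  Set.ncard {j : Fin n | ∃ i : Fin t, v i j ≠ 0}

/-- The `t`-th covering radius of a code `C ⊆ F ^ n`: the maximum over all `t × n` matrices `u`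
of the minimum of the `t`-weight of `u - c`, over all `t × n` matrices `c` with all rows in `C`. -/
noncomputable def coveringRadius {F : Type} [Field F] (t : ℕ) {n : ℕ} (C : Set (Fin n → F)) : ℕ :=
  ⨆ u : Matrix (Fin t) (Fin n) F,
    ⨅ c : {c : Matrix (Fin t) (Fin n) F // ∀ i, c i ∈ C}, tWeight (u - c.1)

/-- `k_t(n,r,q)`: least `log_q |C|` over all nonempty codes `C ⊆ F ^ n` (with `q = |F|`) whose
`t`-th covering radius is at most `r`. -/
noncomputable def kGen (F : Type) [Field F] [Fintype F] (t n : ℕ) (r : ℝ) : ℝ :=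
  sInf {x : ℝ | ∃ C : Set (Fin n → F), C.Nonempty ∧ (coveringRadius t C : ℝ) ≤ r ∧
    x = Real.logb (Fintype.card F) (Set.ncard C)}

/-- The same minimum over linear codes only. -/
noncomputable def kLin (F : Type) [Field F] [Fintype F] (t n : ℕ) (r : ℝ) : ℝ :=
  sInf {x : ℝ | ∃ C : Submodule F (Fin n → F),
    (coveringRadius t (C : Set (Fin n → F)) : ℝ) ≤ r ∧
    x = Real.logb (Fintype.card F) (Set.ncard (C : Set (Fin n → F)))}

/-- The asymptotic rate `κ_t(ρ,q)` for general codes. -/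
noncomputable def kappa (F : Type) [Field F] [Fintype F] (t : ℕ) (ρ : ℝ) : ℝ :=
  liminf (fun n : ℕ => kGen F t n (ρ * n) / n) atTop

/-- The asymptotic rate `κ_t^Lin(ρ,q)` for linear codes. -/
noncomputable def kappaLin (F : Type) [Field F] [Fintype F] (t : ℕ) (ρ : ℝ) : ℝ :=
  liminf (fun n : ℕ => kLin F t n (ρ * n) / n) atTop

section aux

open Pool.Agent.H22

variable {F : Type} [Field F] [Fintype F]

omit [Fintype F] in
theorem tWeight_eq [DecidableEq F] {t n : ℕ} (v : Matrix (Fin t) (Fin n) F) :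
    tWeight v = Cov.wt (fun j i => v i j) := by
  classical
  unfold tWeight Cov.wt
  rw [Set.ncard_eq_toFinset_card']
  congr 1
  ext j
  simp only [Set.mem_toFinset, Set.mem_ofPred_eq, Finset.mem_filter, Finset.mem_univ, true_and]
  rw [Function.ne_iff]
  rfl

theorem coveringRadius_le_iff {t n : ℕ} (C : Set (Fin n → F)) (hC : C.Nonempty) (R : ℕ) :
    coveringRadius t C ≤ R ↔ ∀ u : Matrix (Fin t) (Fin n) F,
      ∃ c : Matrix (Fin t) (Fin n) F, (∀ i, c i ∈ C) ∧ tWeight (u - c) ≤ R := by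
  obtain ⟨c0, hc0⟩ := hC
  have hne : Nonempty {c : Matrix (Fin t) (Fin n) F // ∀ i, c i ∈ C} :=
    ⟨⟨fun _ => c0, fun _ => hc0⟩⟩
  unfold coveringRadius
  constructor
  · intro h u
    have hbdd : BddAbove (Set.range fun u : Matrix (Fin t) (Fin n) F =>
        ⨅ c : {c : Matrix (Fin t) (Fin n) F // ∀ i, c i ∈ C}, tWeight (u - c.1)) :=
      Set.Finite.bddAbove (Set.finite_range _)
    have h1 := (le_ciSup hbdd u).trans h
    obtain ⟨c, hc⟩ := Nat.sInf_mem (Set.range_nonempty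
      (fun c : {c : Matrix (Fin t) (Fin n) F // ∀ i, c i ∈ C} => tWeight (u - c.1)))
    refine ⟨c.1, c.2, ?_⟩
    have h2 : tWeight (u - c.1)
        = ⨅ c : {c : Matrix (Fin t) (Fin n) F // ∀ i, c i ∈ C}, tWeight (u - c.1) := hc
    rw [h2]
    exact h1
  · intro h
    apply ciSup_le
    intro u
    obtain ⟨c, hc, hw⟩ := h u
    exact (ciInf_le (OrderBot.bddBelow _) ⟨c, hc⟩).trans hw

theorem kGen_set_nonempty (t n : ℕ) {r : ℝ} (hr : 0 ≤ r) :
    ∃ x, x ∈ {x : ℝ | ∃ C : Submodule F (Fin n → F),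
      (coveringRadius t (C : Set (Fin n → F)) : ℝ) ≤ r ∧
      x = Real.logb (Fintype.card F) (Set.ncard (C : Set (Fin n → F)))} := by
  refine ⟨_, ⊤, ?_, rfl⟩
  have : coveringRadius t ((⊤ : Submodule F (Fin n → F)) : Set (Fin n → F)) ≤ 0 := by
    rw [coveringRadius_le_iff _ ⟨0, by simp⟩]
    intro u
    refine ⟨u, fun i => by simp, ?_⟩
    rw [sub_self]
    unfold tWeight
    simp
  have h0 : coveringRadius t ((⊤ : Submodule F (Fin n → F)) : Set (Fin n → F)) = 0 := by omega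
  rw [h0]
  simpa using hr

theorem one_lt_q : (1 : ℝ) < (Fintype.card F : ℝ) := by
  exact_mod_cast Fintype.one_lt_card

theorem gen_nonneg {n : ℕ} (C : Set (Fin n → F)) (hC : C.Nonempty) :
    0 ≤ Real.logb (Fintype.card F) (Set.ncard C) := by
  apply Real.logb_nonneg one_lt_q
  have : 0 < Set.ncard C := (Set.ncard_pos (Set.toFinite C)).mpr hC
  exact_mod_cast this

theorem bddBelow_gen (t n : ℕ) (r : ℝ) :
    BddBelow {x : ℝ | ∃ C : Set (Fin n → F), C.Nonempty ∧ (coveringRadius t C : ℝ) ≤ r ∧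
      x = Real.logb (Fintype.card F) (Set.ncard C)} := by
  refine ⟨0, ?_⟩
  rintro x ⟨C, hC, _, rfl⟩
  exact gen_nonneg C hC

theorem bddBelow_lin (t n : ℕ) (r : ℝ) :
    BddBelow {x : ℝ | ∃ C : Submodule F (Fin n → F),
      (coveringRadius t (C : Set (Fin n → F)) : ℝ) ≤ r ∧
      x = Real.logb (Fintype.card F) (Set.ncard (C : Set (Fin n → F)))} := by
  refine ⟨0, ?_⟩
  rintro x ⟨C, _, rfl⟩
  exact gen_nonneg _ ⟨0, C.zero_mem⟩

theorem kGen_le_kLin (t n : ℕ) {r : ℝ} (hr : 0 ≤ r) : kGen F t n r ≤ kLin F t n r := by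
  unfold kGen kLin
  apply csInf_le_csInf (bddBelow_gen t n r) (kGen_set_nonempty t n hr)
  rintro x ⟨C, hC, rfl⟩
  exact ⟨C, ⟨0, C.zero_mem⟩, hC, rfl⟩

theorem kGen_nonneg (t n : ℕ) {r : ℝ} (hr : 0 ≤ r) : 0 ≤ kGen F t n r := by
  unfold kGen
  apply le_csInf
  · obtain ⟨x, C, hC, rfl⟩ := kGen_set_nonempty (F := F) t n hr
    exact ⟨_, C, ⟨0, C.zero_mem⟩, hC, rfl⟩
  · rintro x ⟨C, hC, _, rfl⟩
    exact gen_nonneg C hC

theorem logb_ncard_submodule {n : ℕ} (C : Submodule F (Fin n → F)) :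
    Real.logb (Fintype.card F) (Set.ncard (C : Set (Fin n → F))) = Module.finrank F C := by
  have h1 : Set.ncard (C : Set (Fin n → F)) = Fintype.card F ^ Module.finrank F C := by
    have h2 : Set.ncard (C : Set (Fin n → F)) = Nat.card C := rfl
    rw [h2, Module.natCard_eq_pow_finrank (K := F), Nat.card_eq_fintype_card]
  rw [h1]
  push_cast
  rw [Real.logb_pow, Real.logb_self_eq_one one_lt_q, mul_one]

theorem kLin_le (t n : ℕ) {r : ℝ} (hr : 0 ≤ r) : kLin F t n r ≤ n := by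
  unfold kLin
  have h1 := coveringRadius_le_iff (t := t) ((⊤ : Submodule F (Fin n → F)) : Set (Fin n → F))
    ⟨0, by simp⟩ 0
  have h2 : coveringRadius t ((⊤ : Submodule F (Fin n → F)) : Set (Fin n → F)) ≤ 0 := by
    rw [h1]
    intro u
    refine ⟨u, fun i => by simp, ?_⟩
    rw [sub_self]
    unfold tWeight
    simp
  have h3 : coveringRadius t ((⊤ : Submodule F (Fin n → F)) : Set (Fin n → F)) = 0 := by omega
  have h4 : (n : ℝ) ∈ {x : ℝ | ∃ C : Submodule F (Fin n → F),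
      (coveringRadius t (C : Set (Fin n → F)) : ℝ) ≤ r ∧
      x = Real.logb (Fintype.card F) (Set.ncard (C : Set (Fin n → F)))} := by
    refine ⟨⊤, by rw [h3]; simpa using hr, ?_⟩
    rw [logb_ncard_submodule, finrank_top]
    simp
  exact csInf_le (bddBelow_lin t n r) h4

theorem kLin_le_kGen_add (t : ℕ) (ht : 0 < t) (δ : ℝ) (hδ : 0 < δ) :
    ∃ n0 : ℕ, ∀ n ≥ n0, ∀ r : ℝ, 0 ≤ r → kLin F t n r ≤ kGen F t n r + δ * n := by
  classical
  obtain ⟨n0, hn0⟩ := Cov.main_bound (F := F) t ht δ hδ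
  refine ⟨n0, ?_⟩
  intro n hn r hr
  rw [← sub_le_iff_le_add]
  unfold kGen
  apply le_csInf
  · obtain ⟨x, C, hC, rfl⟩ := kGen_set_nonempty (F := F) t n hr
    exact ⟨_, C, ⟨0, C.zero_mem⟩, hC, rfl⟩
  · rintro x ⟨C, hC, hrad, rfl⟩
    have hcov := (coveringRadius_le_iff (t := t) C hC (coveringRadius t C)).mp le_rfl
    obtain ⟨C', hC', hdim⟩ := hn0 n hn (coveringRadius t C) C.toFinset (by simpa using hC) (by
      intro u
      obtain ⟨c, hc, hw⟩ := hcov (fun i j => u j i)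
      refine ⟨fun j i => c i j, fun i => by simpa using hc i, ?_⟩
      rw [tWeight_eq] at hw
      exact hw)
    have h1 : coveringRadius t (C' : Set (Fin n → F)) ≤ coveringRadius t C := by
      rw [coveringRadius_le_iff _ ⟨0, C'.zero_mem⟩]
      intro u
      obtain ⟨c, hc, hw⟩ := hC' (fun j i => u i j)
      refine ⟨fun i j => c j i, fun i => hc i, ?_⟩
      rw [tWeight_eq]
      exact hw
    have h2 : kLin F t n r ≤ Module.finrank F C' := by
      unfold kLin
      apply csInf_le (bddBelow_lin t n r)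
      refine ⟨C', ?_, (logb_ncard_submodule C').symm⟩
      have : (coveringRadius t (C' : Set (Fin n → F)) : ℝ) ≤ coveringRadius t C := by
        exact_mod_cast h1
      exact this.trans hrad
    have h3 : (C.toFinset.card : ℝ) = Set.ncard C := by
      rw [Set.ncard_eq_toFinset_card']
    rw [h3] at hdim
    linarith

end aux

/-- For all `t ≥ 2`, all finite fields and all normalised radii, linear codes attain the optimal
rate of `t`-th order covering. -/
theorem result : ∀ (F : Type) [Field F] [Fintype F] (t : ℕ), 2 ≤ t →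
    ∀ ρ : ℝ, 0 ≤ ρ → ρ ≤ 1 → kappa F t ρ = kappaLin F t ρ := by
  intro F _ _ t ht ρ hρ0 _
  have hr : ∀ n : ℕ, 0 ≤ ρ * n := fun n => by positivity
  have hG0 : ∀ n : ℕ, 0 ≤ kGen F t n (ρ * n) / n := fun n =>
    div_nonneg (kGen_nonneg t n (hr n)) (Nat.cast_nonneg n)
  have hGL : ∀ n : ℕ, kGen F t n (ρ * n) / n ≤ kLin F t n (ρ * n) / n := fun n =>
    div_le_div_of_nonneg_right (kGen_le_kLin t n (hr n)) (Nat.cast_nonneg n)
  have hL1 : ∀ n : ℕ, kLin F t n (ρ * n) / n ≤ 1 := fun n =>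
    div_le_one_of_le₀ (kLin_le t n (hr n)) (Nat.cast_nonneg n)
  have bG : IsBoundedUnder (· ≥ ·) atTop (fun n : ℕ => kGen F t n (ρ * n) / n) :=
    isBoundedUnder_of ⟨0, hG0⟩
  have bL : IsBoundedUnder (· ≥ ·) atTop (fun n : ℕ => kLin F t n (ρ * n) / n) :=
    isBoundedUnder_of ⟨0, fun n => (hG0 n).trans (hGL n)⟩
  have cG : IsCoboundedUnder (· ≥ ·) atTop (fun n : ℕ => kGen F t n (ρ * n) / n) :=
    (isBoundedUnder_of ⟨1, fun n => (hGL n).trans (hL1 n)⟩ :
      IsBoundedUnder (· ≤ ·) atTop (fun n : ℕ => kGen F t n (ρ * n) / n)).isCoboundedUnder_ge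
  have cL : IsCoboundedUnder (· ≥ ·) atTop (fun n : ℕ => kLin F t n (ρ * n) / n) :=
    (isBoundedUnder_of ⟨1, hL1⟩ :
      IsBoundedUnder (· ≤ ·) atTop (fun n : ℕ => kLin F t n (ρ * n) / n)).isCoboundedUnder_ge
  apply le_antisymm
  · exact liminf_le_liminf (Eventually.of_forall hGL) bG cL
  · apply le_of_forall_pos_le_add
    intro δ hδ
    obtain ⟨n0, hn0⟩ := kLin_le_kGen_add (F := F) t (by omega) δ hδ
    have h1 : ∀ᶠ n : ℕ in atTop,
        kLin F t n (ρ * n) / n ≤ kGen F t n (ρ * n) / n + δ := by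
      filter_upwards [eventually_ge_atTop n0, eventually_gt_atTop 0] with n hn hnpos
      have hnpos' : (0 : ℝ) < n := by exact_mod_cast hnpos
      rw [div_add' _ _ _ hnpos'.ne']
      exact div_le_div_of_nonneg_right (hn0 n hn (ρ * n) (hr n)) hnpos'.le
    have h2 : liminf (fun n : ℕ => kGen F t n (ρ * n) / n + δ) atTop
        = liminf (fun n : ℕ => kGen F t n (ρ * n) / n) atTop + δ :=
      liminf_add_const atTop _ δ cG bG
    unfold kappa kappaLin
    rw [← h2]
    have h3 : IsBoundedUnder (· ≤ ·) atTop (fun n : ℕ => kGen F t n (ρ * n) / n + δ) :=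
      isBoundedUnder_of ⟨1 + δ, fun n => by
        have := (hGL n).trans (hL1 n)
        linarith⟩
    exact liminf_le_liminf h1 bL h3.isCoboundedUnder_ge

end Pool.Agent.Results.MP_5b687f_co.LinearOptimal
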